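import Pool.Agent.Lib.MP_f99ede_an.H89Own

/-! A complemented subspace of `L₁[0,1]` isomorphic neither to `L₁[0,1]` nor to `ℓ₁`; it contains
no copy of `L₁[0,1]` and fails the Schur property. -/

namespace Pool.Agent.Lib.MP_f99ede_an.Variants.ExoticRange

open MeasureTheory

/-- The real space `L₁[0,1]`. -/
abbrev L1 : Type := Lp ℝ 1 (volume.restrict (Set.Icc (0 : ℝ) 1))

/-- The real space `ℓ₁`. -/
abbrev l1 : Type := lp (fun _ : ℕ => ℝ) 1

/-- `E` fails the Schur property: it has a weakly null sequence whose norms stay above a positive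
constant. -/
def NotSchur (E : Type) [NormedAddCommGroup E] [NormedSpace ℝ E] : Prop :=
  ∃ (x : ℕ → E) (c : ℝ), 0 < c ∧ (∀ j, c ≤ ‖x j‖) ∧
    ∀ φ : E →L[ℝ] ℝ, Filter.Tendsto (fun j => φ (x j)) Filter.atTop (nhds 0)

open Pool.Agent.Lib.MP_f99ede_an in
theorem result : ∃ (P : L1 →L[ℝ] L1) (X : Submodule ℝ L1),
    (∀ f, P (P f) = P f) ∧ Set.range P = X ∧ IsClosed (X : Set L1) ∧ ¬FiniteDimensional ℝ X ∧
    (∀ T : X →L[ℝ] L1, ¬Function.Bijective T) ∧ (∀ T : X →L[ℝ] l1, ¬Function.Bijective T) ∧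
    (∀ (T : L1 →L[ℝ] X) (c : ℝ), 0 < c → ∃ f, ‖T f‖ < c * ‖f‖) ∧
    (∀ (T : X →L[ℝ] l1) (c : ℝ), 0 < c → ∃ x, ‖T x‖ < c * ‖x‖) ∧ NotSchur X := by
  obtain ⟨P, h1, h2, h3, h4, h5⟩ := main_proj_seq
  have hc := range_complete h1
  refine ⟨P, LinearMap.range (P : L01 →ₗ[ℝ] L01), h1, rfl,
    (completeSpace_coe_iff_isComplete.1 hc).isClosed, h2, fun T hT => ?_, fun T hT => ?_,
    fun T c hc => ?_, fun T c hc => ?_, h5⟩
  · let i := ContinuousLinearEquiv.ofBijective T (LinearMap.ker_eq_bot.2 hT.1)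
      (LinearMap.range_eq_top.2 hT.2)
    obtain ⟨c, c0, hc⟩ := below_of_equiv i.symm
    exact h3 i.symm c c0 hc
  · let i := ContinuousLinearEquiv.ofBijective T (LinearMap.ker_eq_bot.2 hT.1)
      (LinearMap.range_eq_top.2 hT.2)
    obtain ⟨c, c0, hc⟩ := below_of_equiv i
    exact h4 i c c0 hc
  · simpa only [not_forall, not_le] using h3 T c hc
  · simpa only [not_forall, not_le] using h4 T c hc

end Pool.Agent.Lib.MP_f99ede_an.Variants.ExoticRange
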